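import Mathlib

/-! Minors (the lemmas `exists_minor`, `linInd_of_minor`, `diff_det` are due to helper70, package P4). -/

set_option autoImplicit false

namespace Pool.Agent.Helper13.CX

open Set Topology

/-- a matrix with independent rows has a non-zero maximal minor -/
theorem exists_minor {k m : ℕ} (A : Fin k → Fin m → ℂ) (hA : LinearIndependent ℂ A) :
    ∃ J : Fin k → Fin m, (Matrix.of fun i j => A i (J j)).det ≠ 0 := by
  classical
  by_contra hcon
  push Not at hcon
  -- a right inverse
  have hinj : LinearMap.ker (Fintype.linearCombination ℂ A) = ⊥ := by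
    rw [LinearMap.ker_eq_bot']
    intro g hg
    have := Fintype.linearIndependent_iff.1 hA g (by simpa [Fintype.linearCombination_apply] using hg)
    funext i
    exact this i
  obtain ⟨L, hL⟩ := (Fintype.linearCombination ℂ A).exists_leftInverse_of_injective hinj
  -- `L (A i) = e_i`
  have hLA : ∀ i, L (A i) = Pi.single i 1 := by
    intro i
    have h := LinearMap.congr_fun hL (Pi.single i 1)
    simpa using h
  let B : Fin m → Fin k → ℂ := fun l => L (Pi.single l 1)
  have hAB : ∀ i i', ∑ l, A i l * B l i' = if i = i' then 1 else 0 := by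
    intro i i'
    have h := congrFun (hLA i) i'
    have h2 : A i = ∑ l, A i l • (Pi.single l (1 : ℂ) : Fin m → ℂ) := by
      funext j
      simp [Finset.sum_apply, Pi.single_apply]
    rw [h2, map_sum] at h
    simp only [map_smul, Finset.sum_apply, Pi.smul_apply, smul_eq_mul] at h
    rw [show (∑ l, A i l * B l i') = ∑ x, A i x * L (Pi.single x 1) i' from rfl, h, Pi.single_apply]
    simp only [eq_comm]
  have hdet : (1 : Matrix (Fin k) (Fin k) ℂ).det = 0 := by
    have h1 : (1 : Matrix (Fin k) (Fin k) ℂ) = fun i' => ∑ l, B l i' • fun i => A i l := by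
      funext i' i
      have := hAB i i'
      simp only [Finset.sum_apply, Pi.smul_apply, smul_eq_mul]
      rw [Matrix.one_apply]
      rw [show (if i' = i then (1 : ℂ) else 0) = if i = i' then 1 else 0 by simp only [eq_comm], ← this]
      exact Finset.sum_congr rfl fun l _ => mul_comm _ _
    have h2 : (1 : Matrix (Fin k) (Fin k) ℂ).det =
        (Matrix.detRowAlternating (R := ℂ) (n := Fin k)).toMultilinearMap
          (fun i' => ∑ l, B l i' • fun i => A i l) := by
      rw [← h1]; rfl
    rw [h2, MultilinearMap.map_sum]
    refine Finset.sum_eq_zero fun J _ => ?_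
    rw [MultilinearMap.map_smul_univ]
    have h3 := hcon J
    rw [← Matrix.det_transpose] at h3
    have h4 : (Matrix.detRowAlternating (R := ℂ) (n := Fin k)).toMultilinearMap
        (fun i' i => A i (J i')) = 0 := h3
    rw [h4, smul_zero]
  rw [Matrix.det_one] at hdet
  exact one_ne_zero hdet

theorem linInd_of_minor {k m : ℕ} (A : Fin k → Fin m → ℂ) (J : Fin k → Fin m)
    (h : (Matrix.of fun i j => A i (J j)).det ≠ 0) : LinearIndependent ℂ A := by
  have h1 : LinearIndependent ℂ (Matrix.of fun i j => A i (J j)).row :=
    Matrix.linearIndependent_rows_of_det_ne_zero h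
  have h2 : (Matrix.of fun i j => A i (J j)).row = (LinearMap.funLeft ℂ ℂ J) ∘ A := by
    funext i j
    rfl
  rw [h2] at h1
  exact h1.of_comp _

theorem diff_det {n m k : ℕ} (V : (Fin n → ℂ) → Fin k → Fin m → ℂ) (U : Set (Fin n → ℂ))
    (hV : ∀ i j, DifferentiableOn ℂ (fun w => V w i j) U) (J : Fin k → Fin m) :
    DifferentiableOn ℂ (fun w => (Matrix.of fun i j => V w i (J j)).det) U := by
  simp only [Matrix.det_apply']
  refine DifferentiableOn.fun_sum fun σ _ => ?_
  refine DifferentiableOn.const_mul ?_ _
  have h := fun i : Fin k => hV (σ i) (J i)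
  have key : ∀ s : Finset (Fin k), DifferentiableOn ℂ (fun w => ∏ i ∈ s, V w (σ i) (J i)) U := by
    intro s
    induction s using Finset.induction_on with
    | empty => simp
    | insert a s ha ih =>
      simp only [Finset.prod_insert ha]
      exact (h a).mul ih
  exact key Finset.univ

end Pool.Agent.Helper13.CX
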