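import Pool.Agent.Helper91.CX.Stm2
import Pool.Agent.Helper13.CX.Minor

/-! Package Q7, first part: brackets of vector fields in `ℂ ^ n`. -/

set_option autoImplicit false

open Metric Set Topology
open scoped Manifold ContDiff

namespace Pool.Agent.Helper13.CX

open Pool.Agent.Helper91.CX

variable {n : ℕ}

theorem brk_eq (u v : (Fin n → ℂ) → Fin n → ℂ) (y : Fin n → ℂ) :
    brk u v y = VectorField.lieBracket ℂ u v y := rfl

theorem fderiv_comp_apply {v : (Fin n → ℂ) → Fin n → ℂ} {y : Fin n → ℂ}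
    (hv : DifferentiableAt ℂ v y) (w : Fin n → ℂ) (i : Fin n) :
    fderiv ℂ v y w i = fderiv ℂ (fun z => v z i) y w := by
  have h := (hasFDerivAt_pi'.1 hv.hasFDerivAt) i
  rw [h.fderiv]
  rfl

theorem fderiv_expand (f : (Fin n → ℂ) → ℂ) (y w : Fin n → ℂ) :
    fderiv ℂ f y w = ∑ j, w j * fderiv ℂ f y (Pi.single j 1) := by
  have hw : w = ∑ j, w j • (Pi.single j (1 : ℂ) : Fin n → ℂ) := by
    ext i
    simp [Finset.sum_apply, Pi.single_apply]
  conv_lhs => rw [hw]
  rw [map_sum]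
  refine Finset.sum_congr rfl fun j _ => ?_
  rw [map_smul, smul_eq_mul]

theorem dir_diff (hDer : S_Der) {W : Set (Fin n → ℂ)} (hW : IsOpen W)
    {u v : (Fin n → ℂ) → Fin n → ℂ} (hu : DifferentiableOn ℂ u W) (hv : DifferentiableOn ℂ v W) :
    DifferentiableOn ℂ (fun y => fderiv ℂ v y (u y)) W := by
  rw [differentiableOn_pi]
  intro i
  have h1 : DifferentiableOn ℂ (fun y => ∑ j, u y j *
      fderiv ℂ (fun z => v z i) y (Pi.single j 1)) W := by
    refine DifferentiableOn.fun_sum fun j _ => ?_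
    refine DifferentiableOn.mul ?_ ?_
    · exact (differentiableOn_pi.1 hu) j
    · exact hDer n (fun z => v z i) W hW ((differentiableOn_pi.1 hv) i) _
  refine h1.congr fun y hy => ?_
  rw [fderiv_comp_apply (hv.differentiableAt (hW.mem_nhds hy)), fderiv_expand]

theorem brk_diff (hDer : S_Der) {W : Set (Fin n → ℂ)} (hW : IsOpen W)
    {u v : (Fin n → ℂ) → Fin n → ℂ} (hu : DifferentiableOn ℂ u W) (hv : DifferentiableOn ℂ v W) :
    DifferentiableOn ℂ (brk u v) W :=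
  (dir_diff hDer hW hu hv).sub (dir_diff hDer hW hv hu)

/-- the Leibniz rule -/
theorem dir_leib {k : ℕ} {y : Fin n → ℂ} {v : (Fin n → ℂ) → Fin n → ℂ}
    {e : (Fin n → ℂ) → Fin k → Fin n → ℂ} {d : (Fin n → ℂ) → Fin k → ℂ}
    (he : ∀ j, DifferentiableAt ℂ (fun z => e z j) y) (hd : ∀ j, DifferentiableAt ℂ (fun z => d z j) y)
    (hv : v =ᶠ[𝓝 y] fun z => ∑ j, d z j • e z j) (w : Fin n → ℂ) :
    fderiv ℂ v y w = ∑ j, d y j • fderiv ℂ (fun z => e z j) y w +
      ∑ j, fderiv ℂ (fun z => d z j) y w • e y j := by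
  rw [hv.fderiv_eq]
  have h1 : ∀ j ∈ (Finset.univ : Finset (Fin k)),
      DifferentiableAt ℂ (fun z => d z j • e z j) y := fun j _ => (hd j).smul (he j)
  rw [fderiv_fun_sum h1, ContinuousLinearMap.sum_apply, ← Finset.sum_add_distrib]
  refine Finset.sum_congr rfl fun j _ => ?_
  rw [fderiv_fun_smul (hd j) (he j)]
  simp

theorem brk_leib {k : ℕ} {y : Fin n → ℂ} {u v : (Fin n → ℂ) → Fin n → ℂ}
    {e : (Fin n → ℂ) → Fin k → Fin n → ℂ} {c d : (Fin n → ℂ) → Fin k → ℂ}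
    (he : ∀ j, DifferentiableAt ℂ (fun z => e z j) y)
    (hc : ∀ j, DifferentiableAt ℂ (fun z => c z j) y)
    (hd : ∀ j, DifferentiableAt ℂ (fun z => d z j) y)
    (hu : u =ᶠ[𝓝 y] fun z => ∑ j, c z j • e z j)
    (hv : v =ᶠ[𝓝 y] fun z => ∑ j, d z j • e z j) :
    brk u v y = ∑ i, ∑ j, (c y i * d y j) • brk (fun z => e z i) (fun z => e z j) y +
      (∑ j, fderiv ℂ (fun z => d z j) y (u y) • e y j -
        ∑ i, fderiv ℂ (fun z => c z i) y (v y) • e y i) := by
  have huy : u y = ∑ j, c y j • e y j := hu.self_of_nhds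
  have hvy : v y = ∑ j, d y j • e y j := hv.self_of_nhds
  unfold brk
  rw [dir_leib he hd hv (u y), dir_leib he hc hu (v y)]
  have h1 : ∑ j, d y j • fderiv ℂ (fun z => e z j) y (u y) =
      ∑ i, ∑ j, (c y i * d y j) • fderiv ℂ (fun z => e z j) y (e y i) := by
    rw [Finset.sum_comm]
    refine Finset.sum_congr rfl fun j _ => ?_
    rw [huy, map_sum, Finset.smul_sum]
    refine Finset.sum_congr rfl fun i _ => ?_
    rw [map_smul, smul_smul, mul_comm]
  have h2 : ∑ i, c y i • fderiv ℂ (fun z => e z i) y (v y) =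
      ∑ i, ∑ j, (c y i * d y j) • fderiv ℂ (fun z => e z i) y (e y j) := by
    refine Finset.sum_congr rfl fun i _ => ?_
    rw [hvy, map_sum, Finset.smul_sum]
    refine Finset.sum_congr rfl fun j _ => ?_
    rw [map_smul, smul_smul]
  rw [h1, h2]
  simp only [smul_sub, Finset.sum_sub_distrib]
  abel

theorem brk_congr {u v u' v' : (Fin n → ℂ) → Fin n → ℂ} {y : Fin n → ℂ} (hu : u =ᶠ[𝓝 y] u')
    (hv : v =ᶠ[𝓝 y] v') : brk u v y = brk u' v' y := by
  unfold brk
  rw [hu.fderiv_eq, hv.fderiv_eq, hu.self_of_nhds, hv.self_of_nhds]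

/-- brackets and changes of coordinates -/
theorem brk_nat {h : (Fin n → ℂ) → Fin n → ℂ} {z : Fin n → ℂ} (hh : ContDiffAt ℂ 2 h z)
    {u v u' v' : (Fin n → ℂ) → Fin n → ℂ} (hu : DifferentiableAt ℂ u (h z))
    (hv : DifferentiableAt ℂ v (h z)) (hu' : u' =ᶠ[𝓝 z] VectorField.pullback ℂ h u)
    (hv' : v' =ᶠ[𝓝 z] VectorField.pullback ℂ h v) :
    brk u' v' z = (fderiv ℂ h z).inverse (brk u v (h z)) := by
  rw [brk_congr hu' hv']
  have := VectorField.pullback_lieBracket (𝕜 := ℂ) (n := 2) (by simp) hh hu hv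
  exact this.symm

end Pool.Agent.Helper13.CX
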