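import Pool.Agent.Helper13.CX.Brk

/-! Package Q7, second part: the distribution generated by brackets, naturality. -/

set_option autoImplicit false

open Metric Set Topology
open scoped Manifold ContDiff

namespace Pool.Agent.Helper13.CX

open Pool.Agent.Helper91.CX

variable {n : ℕ} {X : Type} [TopologicalSpace X] [ChartedSpace (Fin n → ℂ) X]

/-- generators of the fibre at `x` -/
def BS (M : Set X) (𝓕 : Ch n X → X → Submodule ℂ (Fin n → ℂ)) (φ : Ch n X) (x : X) :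
    Set (Fin n → ℂ) :=
  {w | w ∈ 𝓕 φ x} ∪ {w | ∃ W u v, Tan M 𝓕 φ W u ∧ Tan M 𝓕 φ W v ∧ φ x ∈ W ∧ w = brk u v (φ x)}

/-- the fibre at `x` -/
def BB (M : Set X) (𝓕 : Ch n X → X → Submodule ℂ (Fin n → ℂ)) (φ : Ch n X) (x : X) :
    Submodule ℂ (Fin n → ℂ) := Submodule.span ℂ (BS M 𝓕 φ x)

/-- the fields of a frame and their brackets -/
noncomputable def VV {r : ℕ} (e : (Fin n → ℂ) → Fin r → Fin n → ℂ) (y : Fin n → ℂ) :
    Fin r ⊕ (Fin r × Fin r) → Fin n → ℂ :=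
  Sum.elim (fun i => e y i) (fun p => brk (fun z => e z p.1) (fun z => e z p.2) y)

theorem hol_col {r : ℕ} {W : Set (Fin n → ℂ)} {e : (Fin n → ℂ) → Fin r → Fin n → ℂ}
    (he : Hol W e) (i : Fin r) : DifferentiableOn ℂ (fun y => e y i) W :=
  differentiableOn_pi.2 (he i)

theorem VV_diff (hDer : S_Der) {r : ℕ} {W : Set (Fin n → ℂ)} (hW : IsOpen W)
    {e : (Fin n → ℂ) → Fin r → Fin n → ℂ} (he : Hol W e) (k : Fin r ⊕ (Fin r × Fin r)) :
    DifferentiableOn ℂ (fun y => VV e y k) W := by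
  rcases k with i | p
  · exact hol_col he i
  · exact brk_diff hDer hW (hol_col he p.1) (hol_col he p.2)

theorem frame_tan {M : Set X} {𝓕 : Ch n X → X → Submodule ℂ (Fin n → ℂ)} {φ : Ch n X} {r : ℕ}
    {W : Set (Fin n → ℂ)} {e : (Fin n → ℂ) → Fin r → Fin n → ℂ} (hD : Dom φ M W) (he : Hol W e)
    (hf : ∀ y ∈ W, Fr 𝓕 φ (φ.symm y) (e y)) (i : Fin r) : Tan M 𝓕 φ W (fun z => e z i) := by
  refine ⟨hD, hol_col he i, fun y hy => ?_⟩
  rw [← (hf y hy).2]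
  exact Submodule.subset_span (mem_range_self i)

theorem BB_frame (hCr : S_Cramer) {M : Set X} {𝓕 : Ch n X → X → Submodule ℂ (Fin n → ℂ)}
    {φ : Ch n X} {r : ℕ} {W : Set (Fin n → ℂ)} {e : (Fin n → ℂ) → Fin r → Fin n → ℂ}
    (hD : Dom φ M W) (he : Hol W e) (hf : ∀ y ∈ W, Fr 𝓕 φ (φ.symm y) (e y)) {y : Fin n → ℂ}
    (hy : y ∈ W) : BB M 𝓕 φ (φ.symm y) = Submodule.span ℂ (range (VV e y)) := by
  have hyt : φ (φ.symm y) = y := φ.right_inv (hD.2.1 hy)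
  apply le_antisymm
  · unfold BB
    rw [Submodule.span_le]
    rintro w (hw | ⟨W', u, v, hu, hv, hyW', rfl⟩)
    · have hw' : w ∈ 𝓕 φ (φ.symm y) := hw
      rw [← (hf y hy).2] at hw'
      refine Submodule.span_mono ?_ hw'
      rintro _ ⟨i, rfl⟩
      exact ⟨Sum.inl i, rfl⟩
    · rw [hyt] at hyW' ⊢
      have hWW : IsOpen (W ∩ W') := hD.1.inter hu.1.1
      have heW : Hol (W ∩ W') e := fun i j => (he i j).mono inter_subset_left
      have key : ∀ u : (Fin n → ℂ) → Fin n → ℂ, Tan M 𝓕 φ W' u →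
          ∃ c : (Fin n → ℂ) → Fin r → ℂ, (∀ i, DifferentiableAt ℂ (fun z => c z i) y) ∧
            u =ᶠ[𝓝 y] fun z => ∑ j, c z j • e z j := by
        intro u hu
        obtain ⟨W'', c, hW'', hy'', _, hc, _, hexp⟩ := hCr n n r (W ∩ W') (W ∩ W') y e u hWW
          ⟨hy, hyW'⟩ heW (hu.2.1.mono inter_subset_right) (hf y hy).1 subset_closure
          subset_rfl (by
            intro z hz
            rw [(hf z hz.1).2]
            exact hu.2.2 z hz.2)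
        refine ⟨c, fun i => (hc i).differentiableAt (hW''.mem_nhds hy''), ?_⟩
        filter_upwards [hW''.mem_nhds hy''] with z hz using hexp z hz
      obtain ⟨c, hc, hcu⟩ := key u hu
      obtain ⟨d, hd, hdv⟩ := key v hv
      have hea : ∀ j, DifferentiableAt ℂ (fun z => e z j) y := fun j =>
        (hol_col he j).differentiableAt (hD.1.mem_nhds hy)
      show brk u v y ∈ Submodule.span ℂ (range (VV e y))
      rw [brk_leib hea hc hd hcu hdv]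
      have h1 : ∀ i, e y i ∈ Submodule.span ℂ (range (VV e y)) := fun i =>
        Submodule.subset_span ⟨Sum.inl i, rfl⟩
      have h2 : ∀ i j, brk (fun z => e z i) (fun z => e z j) y ∈
          Submodule.span ℂ (range (VV e y)) := fun i j =>
        Submodule.subset_span ⟨Sum.inr (i, j), rfl⟩
      refine Submodule.add_mem _ ?_ (Submodule.sub_mem _ ?_ ?_)
      · exact Submodule.sum_mem _ fun i _ => Submodule.sum_mem _ fun j _ =>
          Submodule.smul_mem _ _ (h2 i j)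
      · exact Submodule.sum_mem _ fun j _ => Submodule.smul_mem _ _ (h1 j)
      · exact Submodule.sum_mem _ fun j _ => Submodule.smul_mem _ _ (h1 j)
  · rw [Submodule.span_le]
    rintro _ ⟨k, rfl⟩
    rcases k with i | p
    · refine Submodule.subset_span (Or.inl ?_)
      show e y i ∈ 𝓕 φ (φ.symm y)
      rw [← (hf y hy).2]
      exact Submodule.subset_span (mem_range_self i)
    · refine Submodule.subset_span (Or.inr ⟨W, fun z => e z p.1, fun z => e z p.2,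
        frame_tan hD he hf _, frame_tan hD he hf _, ?_, ?_⟩)
      · rwa [hyt]
      · rw [hyt]; rfl

variable [IsManifold 𝓘(ℂ, Fin n → ℂ) ω X]

theorem cc_smooth (F : Aut n X) {φ ψ : Ch n X} (hφ : φ ∈ Charts n X) (hψ : ψ ∈ Charts n X)
    {z : Fin n → ℂ} (hz : z ∈ ψ.target) (hz' : F.symm (ψ.symm z) ∈ φ.source) :
    ContDiffAt ℂ 2 (cc F φ ψ) z := by
  have h1 : ContMDiffAt 𝓘(ℂ, Fin n → ℂ) 𝓘(ℂ, Fin n → ℂ) ω ψ.symm z :=
    contMDiffAt_symm_of_mem_maximalAtlas hψ hz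
  have h2 : ContMDiffAt 𝓘(ℂ, Fin n → ℂ) 𝓘(ℂ, Fin n → ℂ) ω F.symm (ψ.symm z) :=
    F.symm.contMDiff.contMDiffAt
  have h3 : ContMDiffAt 𝓘(ℂ, Fin n → ℂ) 𝓘(ℂ, Fin n → ℂ) ω φ (F.symm (ψ.symm z)) :=
    contMDiffAt_of_mem_maximalAtlas hφ hz'
  have h4 : ContMDiffAt 𝓘(ℂ, Fin n → ℂ) 𝓘(ℂ, Fin n → ℂ) ω (φ ∘ (F.symm ∘ ψ.symm)) z :=
    ContMDiffAt.comp z h3 (ContMDiffAt.comp z h2 h1)
  have h5 : ContDiffAt ℂ ω (cc F φ ψ) z := contMDiffAt_iff_contDiffAt.1 h4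
  exact h5.of_le le_top

theorem cc_inverse (hCh : S_Chart n X) (F : Aut n X) {φ ψ : Ch n X} (hφ : φ ∈ Charts n X)
    (hψ : ψ ∈ Charts n X) {z : Fin n → ℂ} (hz : z ∈ ψ.target)
    (hz' : F.symm (ψ.symm z) ∈ φ.source) :
    (fderiv ℂ (cc F φ ψ) z).inverse = der F φ ψ (F.symm (ψ.symm z)) := by
  have hF : F (F.symm (ψ.symm z)) = ψ.symm z := F.apply_symm_apply _
  have hs : F (F.symm (ψ.symm z)) ∈ ψ.source := by rw [hF]; exact ψ.map_target hz
  have h := hCh.2.2.1 F φ hφ ψ hψ (F.symm (ψ.symm z)) hz' hs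
  have hd : der F.symm ψ φ (F (F.symm (ψ.symm z))) = fderiv ℂ (cc F φ ψ) z := by
    unfold der
    rw [hF, ψ.right_inv hz]
    rfl
  rw [hd] at h
  apply ContinuousLinearMap.inverse_eq
  · ext1 v
    exact (h v).1
  · ext1 v
    exact (h v).2

theorem BB_map_le (hCh : S_Chart n X) {M : Set X} {𝓕 : Ch n X → X → Submodule ℂ (Fin n → ℂ)}
    {r : ℕ} (hI : IsDist M 𝓕 r) (F : Aut n X) {φ ψ : Ch n X} (hφ : φ ∈ Charts n X)
    (hψ : ψ ∈ Charts n X) {x : X} (hx : x ∈ φ.source) (hxM : x ∈ M) (hF : F x ∈ ψ.source) :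
    (BB M 𝓕 φ x).map (der F φ ψ x : (Fin n → ℂ) →ₗ[ℂ] (Fin n → ℂ)) ≤ BB M 𝓕 ψ (F x) := by
  unfold BB
  rw [Submodule.map_span, Submodule.span_le]
  rintro _ ⟨w, hw | ⟨W, u, v, hu, hv, hxW, rfl⟩, rfl⟩
  · refine Submodule.subset_span (Or.inl ?_)
    show (der F φ ψ x) w ∈ 𝓕 ψ (F x)
    rw [hI.nat F φ hφ ψ hψ x hx hxM hF]
    exact ⟨w, hw, rfl⟩
  · obtain ⟨hTo, _, hfield⟩ := hCh.2.2.2 F φ hφ ψ hψ W hu.1.1 hu.1.2.1
    have key : ∀ u : (Fin n → ℂ) → Fin n → ℂ, Tan M 𝓕 φ W u →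
        Tan M 𝓕 ψ (Tr F φ ψ W) (fun z => der F φ ψ (F.symm (ψ.symm z)) (u (cc F φ ψ z))) ∧
        ∀ z ∈ Tr F φ ψ W, der F φ ψ (F.symm (ψ.symm z)) (u (cc F φ ψ z)) =
          VectorField.pullback ℂ (cc F φ ψ) u z := by
      intro u hu
      refine ⟨⟨⟨hTo, fun z hz => hz.1, ?_⟩, ?_, ?_⟩, ?_⟩
      · rintro z ⟨hz1, hz2, hz3⟩
        have h1 := hu.1.2.2 _ hz3
        have h2 : φ.symm (cc F φ ψ z) = F.symm (ψ.symm z) := φ.left_inv hz2
        rw [h2] at h1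
        have h3 := hI.inv F _ h1
        rwa [F.apply_symm_apply] at h3
      · have h1 : Hol W (fun y (_ : Fin 1) => u y) := fun i j => (differentiableOn_pi.1 hu.2.1) j
        have h2 := hfield 1 (fun y (_ : Fin 1) => u y) h1
        exact differentiableOn_pi.2 (h2 0)
      · rintro z ⟨hz1, hz2, hz3⟩
        have h2 : φ.symm (cc F φ ψ z) = F.symm (ψ.symm z) := φ.left_inv hz2
        have h1 := hu.1.2.2 _ hz3
        rw [h2] at h1
        have hF2 : F (F.symm (ψ.symm z)) = ψ.symm z := F.apply_symm_apply _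
        have hs : F (F.symm (ψ.symm z)) ∈ ψ.source := by rw [hF2]; exact ψ.map_target hz1
        have h3 := hI.nat F φ hφ ψ hψ _ hz2 h1 hs
        rw [hF2] at h3
        show der F φ ψ (F.symm (ψ.symm z)) (u (cc F φ ψ z)) ∈ 𝓕 ψ (ψ.symm z)
        rw [h3]
        have h4 := hu.2.2 _ hz3
        rw [h2] at h4
        exact ⟨_, h4, rfl⟩
      · rintro z ⟨hz1, hz2, hz3⟩
        show _ = (fderiv ℂ (cc F φ ψ) z).inverse (u (cc F φ ψ z))
        rw [cc_inverse hCh F hφ hψ hz1 hz2]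
    obtain ⟨hu1, hu2⟩ := key u hu
    obtain ⟨hv1, hv2⟩ := key v hv
    have e0 : ψ.symm (ψ (F x)) = F x := ψ.left_inv hF
    have e1 : F.symm (ψ.symm (ψ (F x))) = x := by rw [e0, F.symm_apply_apply]
    have e2 : cc F φ ψ (ψ (F x)) = φ x := by unfold cc; rw [e1]
    have hmem : ψ (F x) ∈ Tr F φ ψ W := by
      refine ⟨ψ.map_source hF, ?_, ?_⟩
      · rwa [e1]
      · rwa [e2]
    refine Submodule.subset_span (Or.inr ⟨Tr F φ ψ W, _, _, hu1, hv1, hmem, ?_⟩)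
    have hsm : ContDiffAt ℂ 2 (cc F φ ψ) (ψ (F x)) :=
      cc_smooth F hφ hψ hmem.1 hmem.2.1
    have hnb : Tr F φ ψ W ∈ 𝓝 (ψ (F x)) := hTo.mem_nhds hmem
    have hua : DifferentiableAt ℂ u (cc F φ ψ (ψ (F x))) := by
      rw [e2]; exact hu.2.1.differentiableAt (hu.1.1.mem_nhds hxW)
    have hva : DifferentiableAt ℂ v (cc F φ ψ (ψ (F x))) := by
      rw [e2]; exact hv.2.1.differentiableAt (hu.1.1.mem_nhds hxW)
    rw [brk_nat hsm hua hva (Filter.mem_of_superset hnb hu2) (Filter.mem_of_superset hnb hv2),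
      cc_inverse hCh F hφ hψ hmem.1 hmem.2.1, e1, e2]
    rfl

theorem BB_nat (hCh : S_Chart n X) {M : Set X} {𝓕 : Ch n X → X → Submodule ℂ (Fin n → ℂ)}
    {r : ℕ} (hI : IsDist M 𝓕 r) (F : Aut n X) {φ ψ : Ch n X} (hφ : φ ∈ Charts n X)
    (hψ : ψ ∈ Charts n X) {x : X} (hx : x ∈ φ.source) (hxM : x ∈ M) (hF : F x ∈ ψ.source) :
    BB M 𝓕 ψ (F x) = (BB M 𝓕 φ x).map (der F φ ψ x : (Fin n → ℂ) →ₗ[ℂ] (Fin n → ℂ)) := by
  apply le_antisymm _ (BB_map_le hCh hI F hφ hψ hx hxM hF)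
  have e1 : F.symm (F x) = x := F.symm_apply_apply x
  have hFM : F x ∈ M := hI.inv F x hxM
  have h1 := BB_map_le hCh hI F.symm hψ hφ hF hFM (by rw [e1]; exact hx)
  rw [e1] at h1
  intro w hw
  refine ⟨der F.symm ψ φ (F x) w, h1 ⟨w, hw, rfl⟩, ?_⟩
  exact (hCh.2.2.1 F φ hφ ψ hψ x hx hF w).2

theorem BB_rank (hCh : S_Chart n X) {M : Set X} {𝓕 : Ch n X → X → Submodule ℂ (Fin n → ℂ)}
    {r : ℕ} (hI : IsDist M 𝓕 r) (F : Aut n X) {φ ψ : Ch n X} (hφ : φ ∈ Charts n X)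
    (hψ : ψ ∈ Charts n X) {x : X} (hx : x ∈ φ.source) (hxM : x ∈ M) (hF : F x ∈ ψ.source) :
    Module.finrank ℂ (BB M 𝓕 ψ (F x)) = Module.finrank ℂ (BB M 𝓕 φ x) := by
  rw [BB_nat hCh hI F hφ hψ hx hxM hF]
  have hinj : Function.Injective (der F φ ψ x : (Fin n → ℂ) →ₗ[ℂ] (Fin n → ℂ)) := by
    intro a b hab
    have h := hCh.2.2.1 F φ hφ ψ hψ x hx hF
    have h2 : der F φ ψ x a = der F φ ψ x b := hab
    rw [← (h a).1, ← (h b).1, h2]
  exact (LinearEquiv.finrank_eq (Submodule.equivMapOfInjective _ hinj _)).symm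

end Pool.Agent.Helper13.CX
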