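import Pool.Agent.Helper13.CX.Brk2

/-! Package Q7, third part: the distribution generated by brackets. -/

set_option autoImplicit false

open Metric Set Topology
open scoped Manifold ContDiff

namespace Pool.Agent.Helper13.CX

open Pool.Agent.Helper91.CX

variable {n : ℕ} {X : Type} [TopologicalSpace X] [ChartedSpace (Fin n → ℂ) X]

/-- the points where the rank is `r'` -/
def GG (M : Set X) (𝓕 : Ch n X → X → Submodule ℂ (Fin n → ℂ)) (r' : ℕ) : Set X :=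
  {x | x ∈ M ∧ ∀ φ ∈ Charts n X, x ∈ φ.source → Module.finrank ℂ (BB M 𝓕 φ x) = r'}

/-- the minor -/
noncomputable def DD {r r' : ℕ} (e : (Fin n → ℂ) → Fin r → Fin n → ℂ)
    (σ : Fin r' → Fin r ⊕ (Fin r × Fin r)) (J : Fin r' → Fin n) (y : Fin n → ℂ) : ℂ :=
  (Matrix.of fun i j => VV e y (σ i) (J j)).det

theorem ball_frame {M : Set X} {𝓕 : Ch n X → X → Submodule ℂ (Fin n → ℂ)} {r : ℕ}
    (hI : IsDist M 𝓕 r) {φ : Ch n X} (hφ : φ ∈ Charts n X) {x : X} (hx : x ∈ φ.source)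
    (hxM : x ∈ M) : ∃ (ρ : ℝ) (e : (Fin n → ℂ) → Fin r → Fin n → ℂ), 0 < ρ ∧
      Dom φ M (ball (φ x) ρ) ∧ Hol (ball (φ x) ρ) e ∧
        ∀ y ∈ ball (φ x) ρ, Fr 𝓕 φ (φ.symm y) (e y) := by
  obtain ⟨W, e, hD, hxW, he, hf⟩ := hI.frame φ hφ x hx hxM
  obtain ⟨ρ, hρ, hsub⟩ := Metric.isOpen_iff.1 hD.1 (φ x) hxW
  exact ⟨ρ, e, hρ, ⟨isOpen_ball, hsub.trans hD.2.1, fun y hy => hD.2.2 y (hsub hy)⟩,
    fun i j => (he i j).mono hsub, fun y hy => hf y (hsub hy)⟩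

theorem DD_diff (hDer : S_Der) {r r' : ℕ} {W : Set (Fin n → ℂ)} (hW : IsOpen W)
    {e : (Fin n → ℂ) → Fin r → Fin n → ℂ} (he : Hol W e)
    (σ : Fin r' → Fin r ⊕ (Fin r × Fin r)) (J : Fin r' → Fin n) :
    DifferentiableOn ℂ (DD e σ J) W :=
  diff_det (fun y i => VV e y (σ i)) W
    (fun i j => (differentiableOn_pi.1 (VV_diff hDer hW he (σ i))) j) J

/-- density of the set where the minor does not vanish -/
theorem dens (hId : S_Id) {D : (Fin n → ℂ) → ℂ} {B O : Set (Fin n → ℂ)} (hB : IsOpen B)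
    (hpre : IsPreconnected B) (hD : DifferentiableOn ℂ D B) (hO : IsOpen O) (hOB : O ⊆ B)
    {y₀ : Fin n → ℂ} (hy₀ : y₀ ∈ B) (hne : D y₀ ≠ 0) : O ⊆ closure {y | y ∈ O ∧ D y ≠ 0} := by
  intro y hy
  rw [_root_.mem_closure_iff]
  intro O' hO' hyO'
  by_contra hcon
  apply hne
  refine hId n D B hB hpre hD ⟨y, hOB hy, ?_⟩ y₀ hy₀
  filter_upwards [(hO'.inter hO).mem_nhds ⟨hyO', hy⟩] with z hz
  by_contra hz0
  exact hcon ⟨z, hz.1, hz.2, hz0⟩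

theorem sel {ι : Type*} {m r' : ℕ} (v : ι → Fin m → ℂ)
    (h : Module.finrank ℂ (Submodule.span ℂ (range v)) = r') :
    ∃ σ : Fin r' → ι, LinearIndependent ℂ (fun i => v (σ i)) := by
  subst h
  obtain ⟨f, hfr, hfs, hfi⟩ := Submodule.exists_fun_fin_finrank_span_eq ℂ (range v)
  choose σ hσ using hfr
  refine ⟨σ, ?_⟩
  have h1 : (fun i => v (σ i)) = f := funext hσ
  rwa [h1]

variable [IsManifold 𝓘(ℂ, Fin n → ℂ) ω X]

theorem G_mem (hCh : S_Chart n X) {M : Set X} {𝓕 : Ch n X → X → Submodule ℂ (Fin n → ℂ)}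
    {r r' : ℕ} (hI : IsDist M 𝓕 r)
    (hmax : ∀ x ∈ M, ∀ φ ∈ Charts n X, x ∈ φ.source → Module.finrank ℂ (BB M 𝓕 φ x) ≤ r')
    {x : X} (hxM : x ∈ M) {φ : Ch n X} (hφ : φ ∈ Charts n X) (hx : x ∈ φ.source)
    (hr : r' ≤ Module.finrank ℂ (BB M 𝓕 φ x)) : x ∈ GG M 𝓕 r' := by
  refine ⟨hxM, fun ψ hψ hxψ => ?_⟩
  have h := BB_rank hCh hI (Diffeomorph.refl 𝓘(ℂ, Fin n → ℂ) X ω) hφ hψ hx hxM hxψ
  have h' : Module.finrank ℂ (BB M 𝓕 ψ x) = Module.finrank ℂ (BB M 𝓕 φ x) := h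
  rw [h']
  exact le_antisymm (hmax x hxM φ hφ hx) hr

/-- a frame near a point of `G` -/
theorem loc (hCh : S_Chart n X) (hCr : S_Cramer) {M : Set X}
    {𝓕 : Ch n X → X → Submodule ℂ (Fin n → ℂ)} {r r' : ℕ} (hI : IsDist M 𝓕 r)
    (hmax : ∀ x ∈ M, ∀ φ ∈ Charts n X, x ∈ φ.source → Module.finrank ℂ (BB M 𝓕 φ x) ≤ r')
    {φ : Ch n X} (hφ : φ ∈ Charts n X) {W : Set (Fin n → ℂ)}
    {e : (Fin n → ℂ) → Fin r → Fin n → ℂ} (hD : Dom φ M W) (he : Hol W e)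
    (hf : ∀ y ∈ W, Fr 𝓕 φ (φ.symm y) (e y)) {y₀ : Fin n → ℂ} (hy₀ : y₀ ∈ W)
    (hG : φ.symm y₀ ∈ GG M 𝓕 r') :
    ∃ (σ : Fin r' → Fin r ⊕ (Fin r × Fin r)) (J : Fin r' → Fin n), DD e σ J y₀ ≠ 0 ∧
      ∀ y ∈ W, LinearIndependent ℂ (fun i => VV e y (σ i)) →
        φ.symm y ∈ GG M 𝓕 r' ∧
          Submodule.span ℂ (range fun i => VV e y (σ i)) = BB M 𝓕 φ (φ.symm y) := by
  have hrk : Module.finrank ℂ (Submodule.span ℂ (range (VV e y₀))) = r' := by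
    rw [← BB_frame hCr hD he hf hy₀]
    exact hG.2 φ hφ (φ.map_target (hD.2.1 hy₀))
  obtain ⟨σ, hσ⟩ := sel (VV e y₀) hrk
  obtain ⟨J, hJ⟩ := exists_minor (fun i => VV e y₀ (σ i)) hσ
  refine ⟨σ, J, hJ, fun y hy hy2 => ?_⟩
  have h1 : Module.finrank ℂ (Submodule.span ℂ (range fun i => VV e y (σ i))) = r' := by
    rw [finrank_span_eq_card hy2, Fintype.card_fin]
  have h2 : Submodule.span ℂ (range fun i => VV e y (σ i)) ≤ BB M 𝓕 φ (φ.symm y) := by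
    rw [BB_frame hCr hD he hf hy]
    apply Submodule.span_mono
    rintro _ ⟨i, rfl⟩
    exact ⟨σ i, rfl⟩
  have h3 : Module.finrank ℂ (Submodule.span ℂ (range fun i => VV e y (σ i))) ≤
      Module.finrank ℂ (BB M 𝓕 φ (φ.symm y)) := Submodule.finrank_mono h2
  have h4 := hmax _ (hD.2.2 y hy) φ hφ (φ.map_target (hD.2.1 hy))
  refine ⟨G_mem hCh hI hmax (hD.2.2 y hy) hφ (φ.map_target (hD.2.1 hy)) (by omega), ?_⟩
  exact Submodule.eq_of_le_of_finrank_le h2 (by omega)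

theorem isDist_BB (hCh : S_Chart n X) (hCr : S_Cramer) (hDer : S_Der) {M : Set X}
    {𝓕 : Ch n X → X → Submodule ℂ (Fin n → ℂ)} {r r' : ℕ} (hI : IsDist M 𝓕 r)
    (hmax : ∀ x ∈ M, ∀ φ ∈ Charts n X, x ∈ φ.source → Module.finrank ℂ (BB M 𝓕 φ x) ≤ r') :
    IsDist (GG M 𝓕 r') (BB M 𝓕) r' := by
  have hfr : ∀ φ ∈ Charts n X, ∀ x ∈ φ.source, x ∈ GG M 𝓕 r' → ∃ (W : Set (Fin n → ℂ))
      (e : (Fin n → ℂ) → Fin r' → Fin n → ℂ), Dom φ (GG M 𝓕 r') W ∧ φ x ∈ W ∧ Hol W e ∧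
      ∀ y ∈ W, Fr (BB M 𝓕) φ (φ.symm y) (e y) := by
    intro φ hφ x hx hxG
    obtain ⟨W, e, hD, hxW, he, hf⟩ := hI.frame φ hφ x hx hxG.1
    obtain ⟨σ, J, hne, hall⟩ := loc hCh hCr hI hmax hφ hD he hf hxW (by
      rw [φ.left_inv hx]; exact hxG)
    have hDD := DD_diff hDer hD.1 he σ J
    have hop : IsOpen (W ∩ DD e σ J ⁻¹' {0}ᶜ) :=
      hDD.continuousOn.isOpen_inter_preimage hD.1 isOpen_compl_singleton
    refine ⟨W ∩ DD e σ J ⁻¹' {0}ᶜ, fun y i => VV e y (σ i), ⟨hop, ?_, ?_⟩, ⟨hxW, hne⟩, ?_, ?_⟩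
    · exact inter_subset_left.trans hD.2.1
    · rintro y ⟨hy, hy2⟩
      exact (hall y hy (linInd_of_minor _ J hy2)).1
    · intro i j
      exact ((differentiableOn_pi.1 (VV_diff hDer hD.1 he (σ i))) j).mono inter_subset_left
    · rintro y ⟨hy, hy2⟩
      have h := linInd_of_minor _ J hy2
      exact ⟨h, (hall y hy h).2⟩
  refine ⟨?_, hfr, ?_, ?_⟩
  · rw [isOpen_iff_mem_nhds]
    intro x hx
    have hc := mem_chart_source (Fin n → ℂ) x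
    have hca : chartAt (Fin n → ℂ) x ∈ Charts n X := IsManifold.chart_mem_maximalAtlas x
    obtain ⟨W, e, hD, hxW, he, hf⟩ := hfr _ hca x hc hx
    have h1 : (chartAt (Fin n → ℂ) x).source ∩ (chartAt (Fin n → ℂ) x) ⁻¹' W ∈ 𝓝 x :=
      ((chartAt (Fin n → ℂ) x).isOpen_inter_preimage hD.1).mem_nhds ⟨hc, hxW⟩
    refine Filter.mem_of_superset h1 ?_
    rintro y ⟨hy, hyW⟩
    have h2 := hD.2.2 _ hyW
    rwa [(chartAt (Fin n → ℂ) x).left_inv hy] at h2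
  · intro F x hx
    have hc := mem_chart_source (Fin n → ℂ) x
    have hca : chartAt (Fin n → ℂ) x ∈ Charts n X := IsManifold.chart_mem_maximalAtlas x
    refine ⟨hI.inv F x hx.1, fun ψ hψ hF => ?_⟩
    rw [BB_rank hCh hI F hca hψ hc hx.1 hF]
    exact hx.2 _ hca hc
  · intro F φ hφ ψ hψ x hx hxG hF
    exact BB_nat hCh hI F hφ hψ hx hxG.1 hF

theorem GG_dense (hCh : S_Chart n X) (hCr : S_Cramer) (hDer : S_Der) (hId : S_Id) {M : Set X}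
    {𝓕 : Ch n X → X → Submodule ℂ (Fin n → ℂ)} {r r' : ℕ} (hI : IsDist M 𝓕 r)
    (hmax : ∀ x ∈ M, ∀ φ ∈ Charts n X, x ∈ φ.source → Module.finrank ℂ (BB M 𝓕 φ x) ≤ r')
    (hpre : IsPreconnected M) (hne : (GG M 𝓕 r').Nonempty) : M ⊆ closure (GG M 𝓕 r') := by
  have hGo : IsOpen (GG M 𝓕 r') := (isDist_BB hCh hCr hDer hI hmax).isOpen
  have hsub : M ⊆ interior (closure (GG M 𝓕 r')) := by
    refine hpre.subset_of_closure_inter_subset isOpen_interior ?_ ?_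
    · obtain ⟨x, hx⟩ := hne
      exact ⟨x, hx.1, interior_maximal subset_closure hGo hx⟩
    · rintro x ⟨hxc, hxM⟩
      have hxc' : x ∈ closure (GG M 𝓕 r') := by
        have := closure_mono (interior_subset (s := closure (GG M 𝓕 r'))) hxc
        rwa [closure_closure] at this
      have hc := mem_chart_source (Fin n → ℂ) x
      have hca : chartAt (Fin n → ℂ) x ∈ Charts n X := IsManifold.chart_mem_maximalAtlas x
      set φ := chartAt (Fin n → ℂ) x with hφdef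
      obtain ⟨ρ, e, hρ, hD, he, hf⟩ := ball_frame hI hca hc hxM
      have hO : IsOpen (φ.source ∩ φ ⁻¹' ball (φ x) ρ) := φ.isOpen_inter_preimage isOpen_ball
      have hxO : x ∈ φ.source ∩ φ ⁻¹' ball (φ x) ρ := ⟨hc, mem_ball_self hρ⟩
      obtain ⟨x₁, ⟨hx₁s, hx₁b⟩, hx₁G⟩ := _root_.mem_closure_iff.1 hxc' _ hO hxO
      obtain ⟨σ, J, hne, hall⟩ := loc hCh hCr hI hmax hca hD he hf hx₁b (by
        rw [φ.left_inv hx₁s]; exact hx₁G)
      have hden := dens hId isOpen_ball (convex_ball (φ x) ρ).isPreconnected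
        (DD_diff hDer isOpen_ball he σ J) isOpen_ball subset_rfl hx₁b hne
      refine mem_interior.2 ⟨_, ?_, hO, hxO⟩
      rintro x₂ ⟨hx₂s, hx₂b⟩
      have h1 : ContinuousAt φ.symm (φ x₂) := φ.continuousAt_symm (φ.map_source hx₂s)
      have h2 := mem_closure_image h1 (hden hx₂b)
      rw [φ.left_inv hx₂s] at h2
      refine closure_mono ?_ h2
      rintro _ ⟨y, ⟨hy, hy2⟩, rfl⟩
      exact (hall y hy (linInd_of_minor _ J hy2)).1
  exact hsub.trans interior_subset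

theorem ext_mem (hCr : S_Cramer) {M' G : Set X} {𝓕' : Ch n X → X → Submodule ℂ (Fin n → ℂ)}
    {r' : ℕ} (hI : IsDist M' 𝓕' r') (hcl : M' ⊆ closure G) {φ : Ch n X} (hφ : φ ∈ Charts n X)
    {W : Set (Fin n → ℂ)} (hD : Dom φ M' W) {u : (Fin n → ℂ) → Fin n → ℂ}
    (hu : DifferentiableOn ℂ u W) (h : ∀ y ∈ W, φ.symm y ∈ G → u y ∈ 𝓕' φ (φ.symm y)) :
    ∀ y ∈ W, u y ∈ 𝓕' φ (φ.symm y) := by
  intro y hy
  have hyt := hD.2.1 hy
  obtain ⟨W₁, g, hD₁, hyW₁, hg, hf⟩ := hI.frame φ hφ (φ.symm y) (φ.map_target hyt) (hD.2.2 y hy)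
  rw [φ.right_inv hyt] at hyW₁
  have hWW : IsOpen (W ∩ W₁) := hD.1.inter hD₁.1
  obtain ⟨W₂, c, hW₂, hyW₂, _, _, _, hexp⟩ := hCr n n r' (W ∩ W₁)
    {z | z ∈ W ∩ W₁ ∧ φ.symm z ∈ G} y g u hWW ⟨hy, hyW₁⟩
    (fun i j => (hg i j).mono inter_subset_right) (hu.mono inter_subset_left) (hf y hyW₁).1
    (by
      intro z hz
      rw [_root_.mem_closure_iff]
      intro O hO hzO
      have h1 : IsOpen (φ.source ∩ φ ⁻¹' (O ∩ (W ∩ W₁))) :=
        φ.isOpen_inter_preimage (hO.inter hWW)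
      have hzt := hD.2.1 hz.1
      have h2 : φ.symm z ∈ φ.source ∩ φ ⁻¹' (O ∩ (W ∩ W₁)) := by
        refine ⟨φ.map_target hzt, ?_⟩
        show φ (φ.symm z) ∈ O ∩ (W ∩ W₁)
        rw [φ.right_inv hzt]
        exact ⟨hzO, hz⟩
      obtain ⟨x₁, ⟨hx₁s, hx₁O, hx₁W⟩, hx₁G⟩ :=
        _root_.mem_closure_iff.1 (hcl (hD.2.2 z hz.1)) _ h1 h2
      refine ⟨φ x₁, hx₁O, hx₁W, ?_⟩
      show φ.symm (φ x₁) ∈ G
      rwa [φ.left_inv hx₁s])
    (fun z hz => hz.1)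
    (by
      rintro z ⟨hz, hzG⟩
      rw [(hf z hz.2).2]
      exact h z hz.1 hzG)
  rw [hexp y hyW₂, ← (hf y hyW₁).2]
  exact Submodule.sum_mem _ fun i _ => Submodule.smul_mem _ _
    (Submodule.subset_span (mem_range_self i))

theorem tan_restrict {M M' : Set X} {𝓕 : Ch n X → X → Submodule ℂ (Fin n → ℂ)} (hM' : IsOpen M')
    {φ : Ch n X} {W : Set (Fin n → ℂ)} {u : (Fin n → ℂ) → Fin n → ℂ} (h : Tan M 𝓕 φ W u) :
    Tan M' 𝓕 φ (W ∩ (φ.target ∩ φ.symm ⁻¹' M')) u :=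
  ⟨⟨h.1.1.inter (φ.symm.isOpen_inter_preimage hM'), inter_subset_left.trans h.1.2.1,
    fun y hy => hy.2.2⟩, h.2.1.mono inter_subset_left, fun y hy => h.2.2 y hy.1⟩

theorem tan_mono {M M' : Set X} {𝓕 : Ch n X → X → Submodule ℂ (Fin n → ℂ)} (hM' : M' ⊆ M)
    {φ : Ch n X} {W : Set (Fin n → ℂ)} {u : (Fin n → ℂ) → Fin n → ℂ} (h : Tan M' 𝓕 φ W u) :
    Tan M 𝓕 φ W u :=
  ⟨⟨h.1.1, h.1.2.1, fun y hy => hM' (h.1.2.2 y hy)⟩, h.2.1, h.2.2⟩

theorem brk_mem {M : Set X} {𝓕 : Ch n X → X → Submodule ℂ (Fin n → ℂ)} {φ : Ch n X}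
    {W : Set (Fin n → ℂ)} {u v : (Fin n → ℂ) → Fin n → ℂ} (hu : Tan M 𝓕 φ W u)
    (hv : Tan M 𝓕 φ W v) {y : Fin n → ℂ} (hy : y ∈ W) : brk u v y ∈ BB M 𝓕 φ (φ.symm y) := by
  have hyt : φ (φ.symm y) = y := φ.right_inv (hu.1.2.1 hy)
  refine Submodule.subset_span (Or.inr ⟨W, u, v, hu, hv, ?_, ?_⟩)
  · rwa [hyt]
  · rw [hyt]

theorem le_BB {M : Set X} {𝓕 : Ch n X → X → Submodule ℂ (Fin n → ℂ)} (φ : Ch n X) (x : X) :
    𝓕 φ x ≤ BB M 𝓕 φ x := fun _ hw => Submodule.subset_span (Or.inl hw)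

theorem fr_rank {𝓕 : Ch n X → X → Submodule ℂ (Fin n → ℂ)} {φ : Ch n X} {x : X} {r : ℕ}
    {e : Fin r → Fin n → ℂ} (h : Fr 𝓕 φ x e) : Module.finrank ℂ (𝓕 φ x) = r := by
  rw [← h.2, finrank_span_eq_card h.1, Fintype.card_fin]

theorem dist_rank {M : Set X} {𝓕 : Ch n X → X → Submodule ℂ (Fin n → ℂ)} {r : ℕ}
    (hI : IsDist M 𝓕 r) {φ : Ch n X} (hφ : φ ∈ Charts n X) {x : X} (hx : x ∈ φ.source)
    (hxM : x ∈ M) : Module.finrank ℂ (𝓕 φ x) = r := by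
  obtain ⟨W, e, hD, hxW, he, hf⟩ := hI.frame φ hφ x hx hxM
  have h := fr_rank (hf _ hxW)
  rwa [φ.left_inv hx] at h

theorem brk1 (hCh : S_Chart n X) (hCr : S_Cramer) (hDer : S_Der) (hId : S_Id) (hSat : S_Sat n X)
    (hRemOf : S_RemOf n X) (hConn : S_Conn n X) : S_Brk1 n X := by
  classical
  intro M 𝓕 r hI hMne hpre
  -- the maximal rank
  set S : Set ℕ := {k | ∃ x ∈ M, ∃ φ ∈ Charts n X, x ∈ φ.source ∧
    Module.finrank ℂ (BB M 𝓕 φ x) = k} with hS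
  have hSne : S.Nonempty := by
    obtain ⟨x, hx⟩ := hMne
    exact ⟨_, x, hx, chartAt (Fin n → ℂ) x, IsManifold.chart_mem_maximalAtlas x,
      mem_chart_source (Fin n → ℂ) x, rfl⟩
  have hSb : BddAbove S := by
    refine ⟨n, ?_⟩
    rintro k ⟨x, hx, φ, hφ, hxs, rfl⟩
    have := Submodule.finrank_le (BB M 𝓕 φ x)
    simpa using this
  obtain ⟨r', hr'S, hr'max⟩ : ∃ r' ∈ S, ∀ k ∈ S, k ≤ r' :=
    ⟨sSup S, Nat.sSup_mem hSne hSb, fun k hk => le_csSup hSb hk⟩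
  have hmax : ∀ x ∈ M, ∀ φ ∈ Charts n X, x ∈ φ.source →
      Module.finrank ℂ (BB M 𝓕 φ x) ≤ r' := fun x hx φ hφ hxs =>
    hr'max _ ⟨x, hx, φ, hφ, hxs, rfl⟩
  have hGne : (GG M 𝓕 r').Nonempty := by
    obtain ⟨x, hx, φ, hφ, hxs, hr⟩ := hr'S
    exact ⟨x, G_mem hCh hI hmax hx hφ hxs hr.ge⟩
  have hGD : IsDist (GG M 𝓕 r') (BB M 𝓕) r' := isDist_BB hCh hCr hDer hI hmax
  have hGM : GG M 𝓕 r' ⊆ M := fun x hx => hx.1
  have hMG : M ⊆ closure (GG M 𝓕 r') := GG_dense hCh hCr hDer hId hI hmax hpre hGne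
  have hrr' : r ≤ r' := by
    obtain ⟨x, hx, φ, hφ, hxs, hr⟩ := hr'S
    rw [← hr, ← dist_rank hI hφ hxs hx]
    exact Submodule.finrank_mono (le_BB φ x)
  rcases hrr'.eq_or_lt with heq | hlt
  · left
    intro φ hφ W u v hD hu hv huF hvF y hy
    have h1 := brk_mem (M := M) (𝓕 := 𝓕) (φ := φ) ⟨hD, hu, huF⟩ ⟨hD, hv, hvF⟩ hy
    have hs : φ.symm y ∈ φ.source := φ.map_target (hD.2.1 hy)
    have h2 : 𝓕 φ (φ.symm y) = BB M 𝓕 φ (φ.symm y) := by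
      refine Submodule.eq_of_le_of_finrank_le (le_BB φ _) ?_
      rw [dist_rank hI hφ hs (hD.2.2 y hy), heq]
      exact hmax _ (hD.2.2 y hy) φ hφ hs
    rw [h2]
    exact h1
  · right
    obtain ⟨M', 𝓕', hI', hGM', hM'M, hEq, hLast⟩ := hSat M (GG M 𝓕 r') (BB M 𝓕) r' hI.isOpen
      hI.inv hGD hGM hMG
    have hcl : M ⊆ closure M' := hMG.trans (closure_mono hGM')
    have hRem : Rem n M' M := by
      refine hRemOf M M' hI.isOpen hI'.isOpen hM'M ?_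
      intro φ hφ x hx hxM
      obtain ⟨ρ, e, hρ, hD, he, hf⟩ := ball_frame hI hφ hx hxM
      have hO : IsOpen (φ.source ∩ φ ⁻¹' ball (φ x) ρ) := φ.isOpen_inter_preimage isOpen_ball
      obtain ⟨x₁, ⟨hx₁s, hx₁b⟩, hx₁G⟩ :=
        _root_.mem_closure_iff.1 (hMG hxM) _ hO ⟨hx, mem_ball_self hρ⟩
      obtain ⟨σ, J, hne, hall⟩ := loc hCh hCr hI hmax hφ hD he hf hx₁b (by
        rw [φ.left_inv hx₁s]; exact hx₁G)
      have hden : ∀ O : Set (Fin n → ℂ), IsOpen O → O ⊆ ball (φ x) ρ →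
          O ⊆ closure {y | y ∈ O ∧ DD e σ J y ≠ 0} := fun O hO hOB =>
        dens hId isOpen_ball (convex_ball (φ x) ρ).isPreconnected
          (DD_diff hDer isOpen_ball he σ J) hO hOB hx₁b hne
      refine ⟨Unit, inferInstance, fun _ => r', ball (φ x) ρ, fun _ y i => VV e y (σ i), hD,
        mem_ball_self hρ, fun _ i j => ?_, fun _ => ?_, ?_⟩
      · exact (differentiableOn_pi.1 (VV_diff hDer isOpen_ball he (σ i))) j
      · have h1 := mem_closure_iff_frequently.1 (hden _ isOpen_ball subset_rfl (mem_ball_self hρ))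
        exact h1.mono fun y hy => linInd_of_minor _ J hy.2
      · intro w hw hext
        obtain ⟨W₁, hW₁, hwW₁, g, hg, hgi, hgs⟩ := hext ()
        have hWW : IsOpen (W₁ ∩ ball (φ x) ρ) := hW₁.inter isOpen_ball
        have hwt := hD.2.1 hw
        refine (hLast φ hφ (φ.symm w) (φ.map_target hwt) (W₁ ∩ ball (φ x) ρ)
          {y | y ∈ W₁ ∩ ball (φ x) ρ ∧ DD e σ J y ≠ 0} g ⟨hWW, inter_subset_right.trans hD.2.1,
            fun y hy => hD.2.2 y hy.2⟩ ?_ (fun i j => (hg i j).mono inter_subset_left)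
          (fun y hy => hgi y hy.1) (hden _ hWW inter_subset_right) (fun y hy => hy.1) ?_).1
        · rw [φ.right_inv hwt]; exact ⟨hwW₁, hw⟩
        · rintro y ⟨⟨hy1, hy2⟩, hy3⟩
          have h1 := linInd_of_minor _ J hy3
          have h2 := hall y hy2 h1
          refine ⟨h2.1, ?_⟩
          rw [← h2.2]
          exact hgs y hy1 h1
    have hM'G : M' ⊆ closure (GG M 𝓕 r') := hM'M.trans hMG
    refine ⟨M', GG M 𝓕 r', 𝓕', r', hlt, hI', hGne.mono hGM',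
      hConn.1 M M' hI.isOpen hI'.isOpen hM'M hcl hRem hpre, hM'M, hcl, hRem, ?_, ?_, hGD.isOpen,
      hGM', hM'G, ?_⟩
    · intro φ hφ x hx hxM'
      obtain ⟨W, e, hD, hxW, he, hf⟩ := hI.frame φ hφ x hx (hM'M hxM')
      have hD' : Dom φ M' (W ∩ (φ.target ∩ φ.symm ⁻¹' M')) :=
        ⟨hD.1.inter (φ.symm.isOpen_inter_preimage hI'.isOpen), inter_subset_left.trans hD.2.1,
          fun y hy => hy.2.2⟩
      have hxW' : φ x ∈ W ∩ (φ.target ∩ φ.symm ⁻¹' M') := by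
        refine ⟨hxW, φ.map_source hx, ?_⟩
        show φ.symm (φ x) ∈ M'
        rwa [φ.left_inv hx]
      have h1 := (hf _ hxW).2
      rw [φ.left_inv hx] at h1
      rw [← h1, Submodule.span_le]
      rintro _ ⟨i, rfl⟩
      have h2 := ext_mem hCr hI' hM'G hφ hD' ((hol_col he i).mono inter_subset_left) (by
        intro y hy hyG
        rw [hEq φ hφ _ (φ.map_target (hD'.2.1 hy)) hyG]
        refine le_BB φ _ ?_
        rw [← (hf y hy.1).2]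
        exact Submodule.subset_span (mem_range_self i)) (φ x) hxW'
      rwa [φ.left_inv hx] at h2
    · intro φ hφ W u v hu hv
      refine ext_mem hCr hI' hM'G hφ hu.1 (brk_diff hDer hu.1.1 hu.2.1 hv.2.1) ?_
      intro y hy hyG
      rw [hEq φ hφ _ (φ.map_target (hu.1.2.1 hy)) hyG]
      exact brk_mem (tan_mono hM'M hu) (tan_mono hM'M hv) hy
    · intro φ hφ x hx hxG
      rw [hEq φ hφ x hx hxG]
      apply Submodule.span_mono
      rintro w (hw | ⟨W, u, v, hu, hv, hxW, rfl⟩)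
      · exact Or.inl hw
      · refine Or.inr ⟨W ∩ (φ.target ∩ φ.symm ⁻¹' M'), u, v, tan_restrict hI'.isOpen hu,
          tan_restrict hI'.isOpen hv, ⟨hxW, φ.map_source hx, ?_⟩, rfl⟩
        show φ.symm (φ x) ∈ M'
        rw [φ.left_inv hx]
        exact hGM' hxG

end Pool.Agent.Helper13.CX
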