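import Pool.Agent.Helper13.BW.Ind
import Pool.Agent.Helper68.BM.KChart
import Pool.Agent.Helper62.CX.Stm

/-!
# `C_Ind` from `C_Con`
-/

set_option autoImplicit false

open Polynomial Matrix Finset Filter

namespace Pool.Agent.Helper13.CInd

open Pool.Agent.Helper62.BM Pool.Agent.Helper90.BM Pool.Agent.Helper61.BM Pool.Agent.Helper13.BM
open Pool.Agent.Helper62.BW Pool.Agent.Helper62.CX Pool.Agent.Helper13.BL
open Pool.Agent.Helper13.BW (up_apply map_up map_pi_eval)

section maps

variable {A : Type} [CommRing A] {n : ℕ}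

theorem W_map {B : Type} [CommRing B] (D : Cdat A n) (ψ : A →+* B) :
    (D.map ψ).W = D.W.map ψ := by
  unfold Cdat.W Cdat.map
  simp

theorem B_apply {k : Type} [Field k] (D : Cdat A n) (ψ : A →+* k) (i j : Fin n) :
    (D.map ψ).B i j = ι k ((D.M i j).map ψ) * (ι k (D.W.map ψ))⁻¹ := by
  rw [← W_map]
  rfl

variable (U : Ultrafilter ℕ) {C : ℕ → Type} [∀ i, Field (C i)] (φ : ∀ i, A →+* C i)

/-- a homomorphism on the values of the data -/
theorem B_map_hom {L : ℕ → Type} [∀ i, Field (L i)] (f : KX (UP U C) →+* UP U L)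
    (h : ∀ i, A[X] →+* L i)
    (hf : ∀ q : A[X], f (ι _ (q.map (up U φ))) = Helper62.BM.mk U fun i => h i q)
    (D : Cdat A n) :
    (D.map (up U φ)).B.map f =
      mkM U fun i => Matrix.of fun a b => h i (D.M a b) * (h i D.W)⁻¹ := by
  ext a b
  rw [Matrix.map_apply, B_apply, map_mul, map_inv₀, hf, hf, ← mk_inv, ← map_mul]
  rfl

end maps

/-- Package C6. -/
theorem c_ind (hCon : C_Con) : C_Ind := by
  intro n d hn hdn A _ _ _ Dt hOk hStrong U C _ p _ _ hp φ hφ D hD τ hτ f' hf' hf'D Y hY hYr G hG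
  classical
  -- the fields
  have hcast : ∀ (i : ℕ) (m : ℕ), 1 ≤ m → m < p i → ((m : ℕ) : KX (C i)) ≠ 0 := by
    intro i m h1 h2 h3
    rw [CharP.cast_eq_zero_iff (KX (C i)) (p i)] at h3
    exact absurd (Nat.le_of_dvd h1 h3) (not_le.2 h2)
  have hC0 : CharZero (UP U fun i => KX (C i)) := Helper62.BM.charZero U fun m hm => by
    filter_upwards [hp m] with i hi
    exact hcast i m hm hi
  choose Df hDf _ using fun i => Pool.Agent.Helper12.BM.frac (KX (C i))
  have hev : ∀ i (q : (KX (C i))[X]), q.eval₂ (κ (KX (C i))) (tX (KX (C i))) = ι (KX (C i)) q := by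
    intro i q
    have h1 : q.eval₂ (κ (KX (C i))) (tX (KX (C i))) =
        ι (KX (C i)) (q.eval₂ (Polynomial.C : KX (C i) →+* (KX (C i))[X]) X) := by
      rw [Polynomial.hom_eval₂]
      rfl
    rw [h1, Polynomial.eval₂_C_X]
  obtain ⟨f, hf, hfD⟩ := Pool.Agent.Helper72.BM.emb U (fun i => KX (C i))
    (fun i => KX (KX (C i))) (fun i => κ (KX (C i))) (fun i => tX (KX (C i))) (by
      intro d
      refine Filter.Eventually.of_forall fun i q _ h => ?_
      rw [hev] at h
      exact (map_eq_zero_iff _ (IsFractionRing.injective (KX (C i))[X] (KX (KX (C i))))).1 h)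
  have hf2 : ∀ q : Polynomial (∀ i, KX (C i)), f (ι _ (q.map (Helper62.BM.mk U))) =
      Helper62.BM.mk U fun i => ι (KX (C i)) (q.map (Pi.evalRingHom (fun i => KX (C i)) i)) := by
    intro q
    rw [hf]
    congr 1
    funext i
    exact hev i _
  have hfD2 : ∀ (Dk : Der (KX (UP U fun i => KX (C i)))), IsDer Dk →
      ∀ z, f (Dk z) = der U Df (f z) := fun Dk hDk =>
    hfD Dk Df hDk (fun i y => D_κ (hDf i) y) (fun i => D_tX (hDf i))
  -- the homomorphisms to the larger fields
  set φ' : ∀ i, A →+* KX (C i) := fun i => (cst (C i)).comp (φ i) with hφ'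
  have hφ'0 : ∀ a : A, a ≠ 0 → ∀ᶠ i in (U : Filter ℕ), φ' i a ≠ 0 := fun a ha =>
    (hφ a ha).mono fun i hi => (_root_.map_ne_zero (cst (C i))).2 hi
  have hC := hCon n hn A Dt hOk hStrong U (fun i => KX (C i)) p hp φ' hφ'0 Df hDf f hf2 hfD2
  -- the values of `f` and `f'`
  have hfq : ∀ q : A[X], f (ι _ (q.map (up U φ'))) =
      Helper62.BM.mk U fun i => ((ι (KX (C i))).comp (mapRingHom (φ' i))) q := by
    intro q
    rw [map_up, hf2]
    congr 1
    funext i
    rw [map_pi_eval]
    rfl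
  have hfq' : ∀ q : A[X], f' (ι _ (q.map (up U φ'))) =
      Helper62.BM.mk U fun i => ((ι (C i)).comp (mapRingHom (φ i))) q := by
    intro q
    rw [map_up, hf']
    congr 1
    funext i
    rw [map_pi_eval, hφ', ← Polynomial.map_map, Polynomial.eval₂_map]
    have h1 : (τ i).comp (cst (C i)) = cst (C i) := by
      ext z
      show τ i (ι (C i) (Polynomial.C z)) = ι (C i) (Polynomial.C z)
      rw [hτ, Polynomial.expand_C]
    rw [h1]
    show (q.map (φ i)).eval₂ ((ι (C i)).comp Polynomial.C) (ι (C i) X) = ι (C i) (q.map (φ i))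
    rw [← Polynomial.hom_eval₂, Polynomial.eval₂_C_X]
  set BK := (Dt.map (up U φ')).B with hBK
  have hfB : BK.map f = mkM U fun i => (Dt.map (φ' i)).B := by
    rw [hBK, B_map_hom U φ' f _ hfq]
    congr 1
    funext i
    ext a b
    rw [B_apply]
    rfl
  have hfB' : BK.map f' = mkM U fun i => (Dt.map (φ i)).B := by
    rw [hBK, B_map_hom U φ' f' _ hfq']
    congr 1
    funext i
    ext a b
    rw [B_apply]
    rfl
  obtain ⟨Dk, hDk, -⟩ := Pool.Agent.Helper12.BM.frac (UP U fun i => KX (C i))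
  -- the frame
  have hY2 : ∀ j l, der U D (mkM U Y j l) = (mkM U Y * BK.map f') j l := by
    intro j l
    rw [hfB', ← mkM_mul, mkM_apply, mkM_apply, der_mk]
    congr 1
    funext i
    exact hY i j l
  have hYr2 : ∀ c : Fin d → UP U fun i => KX (C i), c ᵥ* mkM U Y = 0 → c = 0 :=
    rank_up U Y hYr
  let _ : Algebra (KX (UP U fun i => KX (C i))) (UP U fun i => KX (C i)) := f'.toAlgebra
  have hch := Pool.Agent.Helper68.BM.kChart (KX (UP U fun i => KX (C i)))
    (UP U fun i => KX (C i)) d n hdn (mkM U Y) hYr2 (by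
      intro A hA G' hG'
      exact lemA f' f Dk (der U D) (der U Df) (hf'D Dk hDk) (hfD2 Dk hDk) BK (mkM U Y) hY2
        (mkM U fun i => pcv (Df i) (Dt.map (φ' i)).B (p i))
        (by
          intro T hT1 hT2 W hW1 hW2
          exact dpp U (fun i => KX (KX (C i))) p Df (fun i c => isDer_iter (hDf i) (p i) c) d n
            (fun i => (Dt.map (φ' i)).B) T hT1 (by
              intro s
              rw [hT2 s, hfB]) W hW1 hW2)
        A (fun θ hθ => hC A hA θ hθ) G' hG')
  exact (injective_iff_map_eq_zero _).1 hch G hG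

end Pool.Agent.Helper13.CInd
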