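import Pool.Agent.Helper91.CX.Stm

/-! Package P2 (identity theorem, removable singularities). -/

set_option autoImplicit false

open Metric Set Topology

namespace Pool.Agent.Helper13.CX

open Pool.Agent.Helper91.CX

/-- the restriction to a complex line is holomorphic -/
theorem line_diff {n : ℕ} {f : (Fin n → ℂ) → ℂ} {U : Set (Fin n → ℂ)}
    (hf : DifferentiableOn ℂ f U) (a v : Fin n → ℂ) :
    DifferentiableOn ℂ (fun t : ℂ => f (a + t • v)) ((fun t : ℂ => a + t • v) ⁻¹' U) := by
  refine hf.comp ?_ (fun t ht => ht)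
  exact ((differentiable_id.smul_const v).const_add a).differentiableOn

theorem line_cont {n : ℕ} (a v : Fin n → ℂ) : Continuous (fun t : ℂ => a + t • v) := by
  fun_prop

theorem ident : S_Id := by
  intro n f U hU hc hf ⟨z0, hz0, h0⟩
  set S : Set (Fin n → ℂ) := {z | f =ᶠ[𝓝 z] 0} with hS
  have hSo : IsOpen S := isOpen_setOfPred_eventually_nhds
  have hsub : U ⊆ S := by
    refine hc.subset_of_closure_inter_subset hSo ⟨z0, hz0, h0⟩ ?_
    rintro z1 ⟨hz1, hz1U⟩
    obtain ⟨ε, hε, hB⟩ := Metric.isOpen_iff.1 hU z1 hz1U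
    obtain ⟨z2, hz2, hd⟩ := Metric.mem_closure_iff.1 hz1 ε hε
    have hz2B : z2 ∈ ball z1 ε := by rwa [mem_ball, dist_comm]
    have hall : ∀ y ∈ ball z1 ε, f y = 0 := by
      intro y hy
      set T : Set ℂ := (fun t : ℂ => z2 + t • (y - z2)) ⁻¹' (ball z1 ε) with hT
      have hTo : IsOpen T := isOpen_ball.preimage (line_cont _ _)
      have hTc : Convex ℝ T := by
        intro s hs t ht a b ha hb hab
        have h1 := convex_ball z1 ε hs ht ha hb hab
        show z2 + (a • s + b • t) • (y - z2) ∈ ball z1 ε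
        convert h1 using 1
        have hb' : b = 1 - a := by linarith
        subst hb'
        ext i
        simp only [Pi.add_apply, Pi.smul_apply, Pi.sub_apply, smul_eq_mul, Complex.real_smul]
        push_cast
        ring
      have hd' : DifferentiableOn ℂ (fun t : ℂ => f (z2 + t • (y - z2))) T :=
        line_diff (hf.mono hB) _ _
      have han : AnalyticOnNhd ℂ (fun t : ℂ => f (z2 + t • (y - z2))) T :=
        hd'.analyticOnNhd hTo
      have h0T : (0 : ℂ) ∈ T := by
        show z2 + (0 : ℂ) • (y - z2) ∈ ball z1 ε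
        simpa using hz2B
      have h1T : (1 : ℂ) ∈ T := by
        show z2 + (1 : ℂ) • (y - z2) ∈ ball z1 ε
        simpa using hy
      have hev : (fun t : ℂ => f (z2 + t • (y - z2))) =ᶠ[𝓝 0] 0 := by
        have hct : Filter.Tendsto (fun t : ℂ => z2 + t • (y - z2)) (𝓝 0) (𝓝 z2) := by
          have := (line_cont z2 (y - z2)).tendsto 0
          simpa using this
        exact hct.eventually hz2
      have := han.eqOn_zero_of_preconnected_of_eventuallyEq_zero hTc.isPreconnected h0T hev h1T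
      simpa using this
    exact Filter.mem_of_superset (isOpen_ball.mem_nhds (mem_ball_self hε)) hall
  intro z hz
  exact (hsub hz).self_of_nhds

theorem rem (hP : S_Par) : S_Rem := by
  intro n x₀ v r δ g M Z hr hδ hM hg hcirc hZd hZ
  set g' : (Fin n → ℂ) → ℂ := fun z =>
    (2 * Real.pi * Complex.I)⁻¹ * ∮ ζ in C(0, r), g (z + ζ • v) / ζ with hg'
  have hI : DifferentiableOn ℂ (fun z => ∮ ζ in C(0, r), g (z + ζ • v) / ζ) (ball x₀ δ) := by
    refine hP n (fun z ζ => g (z + ζ • v) / ζ) (ball x₀ δ) r hr isOpen_ball ?_ ?_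
    · refine ContinuousOn.div ?_ continuousOn_snd ?_
      · refine hg.continuousOn.comp ?_ ?_
        · exact (continuous_fst.add (continuous_snd.smul continuous_const)).continuousOn
        · rintro ⟨z, ζ⟩ ⟨hz, hζ⟩
          exact hcirc z hz ζ (by simpa using hζ)
      · rintro ⟨z, ζ⟩ ⟨_, hζ⟩ h0
        simp only at h0
        rw [h0] at hζ
        simp at hζ
        exact hr.ne hζ
    · intro ζ hζ
      have h1 : DifferentiableOn ℂ (fun z : Fin n → ℂ => z + ζ • v) (ball x₀ δ) :=
        (differentiable_id.add_const (ζ • v)).differentiableOn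
      have h2 : DifferentiableOn ℂ (fun z : Fin n → ℂ => g (z + ζ • v)) (ball x₀ δ) :=
        hg.comp h1 (fun z hz => hcirc z hz ζ (by simpa using hζ))
      have h3 : (fun z : Fin n → ℂ => g (z + ζ • v) / ζ) = fun z => ζ⁻¹ * g (z + ζ • v) := by
        ext z
        rw [div_eq_mul_inv, mul_comm]
      show DifferentiableOn ℂ (fun z : Fin n → ℂ => g (z + ζ • v) / ζ) (ball x₀ δ)
      rw [h3]
      exact h2.const_mul _
  have hd : DifferentiableOn ℂ g' (ball x₀ δ) := hI.const_mul _
  have hZeq : ∀ z ∈ Z, z ∈ ball x₀ δ → g' z = g z := by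
    intro z hz _
    have h1 : ∀ ζ ∈ closedBall (0 : ℂ) r, DifferentiableAt ℂ (fun ζ : ℂ => g (z + ζ • v)) ζ := by
      intro ζ hζ
      have hm : z + ζ • v ∈ M := hZ z hz ζ (by simpa using hζ)
      have h2 : DifferentiableAt ℂ g (z + ζ • v) := hg.differentiableAt (hM.mem_nhds hm)
      have h3 : DifferentiableAt ℂ (fun ζ : ℂ => z + ζ • v) ζ :=
        ((differentiable_id.smul_const v).const_add z) ζ
      exact DifferentiableAt.comp ζ h2 h3
    have h2 : DiffContOnCl ℂ (fun ζ : ℂ => g (z + ζ • v)) (ball 0 r) := by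
      refine DifferentiableOn.diffContOnCl ?_
      rw [closure_ball (0 : ℂ) hr.ne']
      exact fun ζ hζ => (h1 ζ hζ).differentiableWithinAt
    have h3 := h2.circleIntegral_sub_inv_smul (mem_ball_self hr)
    simp only [sub_zero, smul_eq_mul, zero_smul, add_zero] at h3
    show (2 * Real.pi * Complex.I)⁻¹ * (∮ ζ in C(0, r), g (z + ζ • v) / ζ) = g z
    have h4 : (∮ ζ in C(0, r), g (z + ζ • v) / ζ) = ∮ ζ in C(0, r), ζ⁻¹ * g (z + ζ • v) := by
      congr 1
      ext ζ
      rw [div_eq_mul_inv, mul_comm]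
    rw [h4, h3, ← mul_assoc, inv_mul_cancel₀ Complex.two_pi_I_ne_zero, one_mul]
  refine ⟨g', hd, ?_⟩
  rintro z ⟨hzM, hzB⟩
  have hN : M ∩ ball x₀ δ ∈ 𝓝 z := (hM.inter isOpen_ball).mem_nhds ⟨hzM, hzB⟩
  have c1 : ContinuousAt g' z := (hd.differentiableAt (isOpen_ball.mem_nhds hzB)).continuousAt
  have c2 : ContinuousAt g z := (hg.differentiableAt (hM.mem_nhds hzM)).continuousAt
  have hfr : ∃ᶠ w in 𝓝 z, g' w = g w := by
    have h5 : ∃ᶠ w in 𝓝 z, w ∈ Z := mem_closure_iff_frequently.1 (hZd hzB)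
    have h6 : ∀ᶠ w in 𝓝 z, w ∈ ball x₀ δ := isOpen_ball.mem_nhds hzB
    exact (h5.and_eventually h6).mono (fun w hw => hZeq w hw.1 hw.2)
  by_contra hne
  have h7 : ∀ᶠ w in 𝓝 z, g' w ≠ g w := by
    have h8 := (c1.sub c2).eventually_ne (sub_ne_zero.2 hne)
    exact h8.mono (fun w hw => sub_ne_zero.1 hw)
  exact hfr (h7.mono (fun w hw => hw))

end Pool.Agent.Helper13.CX
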